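import Pool.Agent.H71.Dich

/-!
# Orbits of subgroups of `S_∞` on Borel `S_∞`-spaces

A closed subgroup of `S_∞` has only countably many orbits on the subsets of `ℕ`, or it has
perfectly many orbits on every uncountable Borel `S_∞`-space.
-/

set_option autoImplicit false

namespace Pool.Agent.Results.MP_5607ba_lc.OrbitDichotomy

open Pool.Agent.H71

attribute [local instance] permTop polishSpace_perm isTopologicalGroup_perm permMeas borelSpace_perm

/-- The subgroup `L` of `S_∞` has only countably many orbits on the subsets of `ℕ`: there is a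
countable set `R` of subsets that meets every orbit. -/
def CountablyManyOnSubsets (L : Subgroup (Equiv.Perm ℕ)) : Prop :=
  ∃ R : Set (Set ℕ), R.Countable ∧ ∀ A : Set ℕ, ∃ B ∈ R, ∃ g ∈ L, g '' A = B

/-- The `S_∞`-space `X` has perfectly many `K`-orbits: some Borel map from the Cantor space takes
distinct points to points of distinct `K`-orbits. -/
def PerfectlyManyOrbits (K : Subgroup (Equiv.Perm ℕ)) (X : Type*) [MeasurableSpace X]
    [MulAction (Equiv.Perm ℕ) X] : Prop :=
  ∃ f : (ℕ → Bool) → X, Measurable f ∧ ∀ u v, u ≠ v → ¬ ∃ k ∈ K, k • f u = f v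

/-- Let `K` be a Borel subgroup of `S_∞`, and let `L` be a closed subgroup of `S_∞` such that
`K ∩ L` has countable index in `K` (for instance the closure of `K`).  Then `L` has only countably
many orbits on the subsets of `ℕ`, or every uncountable Borel `S_∞`-space has perfectly many
`K`-orbits. -/
theorem result (K L : Subgroup (Equiv.Perm ℕ)) (hK : MeasurableSet (K : Set (Equiv.Perm ℕ)))
    (hL : IsClosed (L : Set (Equiv.Perm ℕ))) (hidx : Countable (K ⧸ L.subgroupOf K)) :
    CountablyManyOnSubsets L ∨
      ∀ (X : Type*) [MeasurableSpace X] [StandardBorelSpace X] [MulAction (Equiv.Perm ℕ) X],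
        (Measurable fun p : Equiv.Perm ℕ × X => p.1 • p.2) → Uncountable X →
          PerfectlyManyOrbits K X := by
  by_cases h : CountablyManyOnSubsets L
  · exact Or.inl h
  right
  intro X _ _ _ hact hX
  rcases perfect_or_countable hact hX hL with h' | h'
  · obtain ⟨f, hf, hf'⟩ := perfect_of_countable_index hact hK hidx h'
    exact ⟨f, hf, fun u v huv ⟨k, hk, hk'⟩ => hf' u v huv k hk hk'⟩
  · exact absurd h' h

end Pool.Agent.Results.MP_5607ba_lc.OrbitDichotomy
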