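import Pool.Agent.H71.Inst2

set_option autoImplicit false

namespace Pool.Agent.H71.Old.SubgroupOrbits

open Pool.Agent.H71

attribute [local instance] permTop permMeas

/-- Let `≺` be the strict weak order `a ≺ b ↔ ρ a < ρ b` on `ℕ`, with infinitely many classes, and
let `K` be a Borel subgroup of `Perm ℕ` in which the automorphisms of `≺` have countable index.
Then every Borel action of `Perm ℕ` on an uncountable standard Borel space has perfectly many
`K`-orbits. -/
theorem result {Λ : Type*} [LinearOrder Λ] (ρ : ℕ → Λ) (hρ : (Set.range ρ).Infinite)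
    (K : Subgroup (Equiv.Perm ℕ)) (hK : MeasurableSet (K : Set (Equiv.Perm ℕ)))
    (hidx : Countable (K ⧸ (relAut (fun a b => ρ a < ρ b)).subgroupOf K))
    {X : Type*} [MeasurableSpace X] [StandardBorelSpace X] [MulAction (Equiv.Perm ℕ) X]
    (hact : Measurable fun p : Equiv.Perm ℕ × X => p.1 • p.2) (hX : ¬ Countable X) :
    ∃ f : (ℕ → Bool) → X, Measurable f ∧ ∀ x y, x ≠ y → ∀ k ∈ K, k • f x ≠ f y :=
  perfect_of_weakOrder hact hρ hK hidx hX

end Pool.Agent.H71.Old.SubgroupOrbits
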